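import Pool.Agent.Helper19.HN.St

/-! # HN, module HLD: the canonical order of the sets in HOD is definable -/

namespace Pool.Agent.Helper76.HN.HLD

open Ordinal Cardinal ZFSet Order Pool.Agent.Helper73.HODC Pool.Agent.Helper73.HM
open Pool.Agent.Helper73.HE Pool.Agent.Helper73.HU Pool.Agent.Helper19.HN

theorem max_lt_of {x y w z : ZFSet.{0}} (hw : w ∈ x ∨ w ∈ y) (hz : z ∈ y) :
    max w.rank z.rank < max x.rank y.rank := by
  refine max_lt ?_ ((rank_lt_of_mem hz).trans_le (le_max_right _ _))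
  rcases hw with hw | hw
  · exact (rank_lt_of_mem hw).trans_le (le_max_left _ _)
  · exact (rank_lt_of_mem hw).trans_le (le_max_right _ _)

/-- the canonical order, by recursion on the maximum of the ranks -/
def Lr (x y : ZFSet.{0}) : Prop :=
  x.rank < y.rank ∨ (x.rank = y.rank ∧ (key1 x < key1 y ∨ (key1 x = key1 y ∧
    (key2 x < key2 y ∨ (key2 x = key2 y ∧
      ∃ z : {z : ZFSet.{0} // z ∈ y}, z.1 ∉ x ∧ ∀ w : {w : ZFSet.{0} // w ∈ x ∨ w ∈ y},
        Lr w.1 z.1 → (w.1 ∈ x ↔ w.1 ∈ y))))))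
termination_by max x.rank y.rank
decreasing_by exact max_lt_of w.2 z.2

theorem lr_iff (x y : ZFSet.{0}) : Lr x y ↔ HLr Lr x y := by
  rw [Lr]
  unfold HLr
  refine or_congr Iff.rfl (and_congr Iff.rfl (or_congr Iff.rfl (and_congr Iff.rfl
    (or_congr Iff.rfl (and_congr Iff.rfl ?_)))))
  constructor
  · rintro ⟨z, hz, h⟩
    exact ⟨z.1, z.2, hz, fun w hw => h ⟨w, hw⟩⟩
  · rintro ⟨z, hzy, hz, h⟩
    exact ⟨⟨z, hzy⟩, hz, fun w => h w.1 w.2⟩

/-- the recursion only uses smaller pairs -/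
theorem hlr_congr {L L' : ZFSet.{0} → ZFSet.{0} → Prop} {x y : ZFSet.{0}}
    (h : ∀ w z, w ∈ x ∨ w ∈ y → z ∈ y → (L w z ↔ L' w z)) : HLr L x y ↔ HLr L' x y := by
  unfold HLr
  refine or_congr Iff.rfl (and_congr Iff.rfl (or_congr Iff.rfl (and_congr Iff.rfl
    (or_congr Iff.rfl (and_congr Iff.rfl ?_)))))
  refine exists_congr fun z => ?_
  constructor
  · rintro ⟨h1, h2, h3⟩
    exact ⟨h1, h2, fun w hw hl => h3 w hw ((h w z hw h1).2 hl)⟩
  · rintro ⟨h1, h2, h3⟩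
    exact ⟨h1, h2, fun w hw hl => h3 w hw ((h w z hw h1).1 hl)⟩

/-- `W` satisfies the recursion for the pairs of sets of rank less than `al` -/
def Cert (al : Ordinal.{0}) (W : ZFSet.{0}) : Prop :=
  ∀ a b : ZFSet.{0}, a.rank < al → b.rank < al →
    (ZFSet.pair a b ∈ W ↔ HLr (fun w z => ZFSet.pair w z ∈ W) a b)

theorem Cert.iff {al : Ordinal.{0}} {W : ZFSet.{0}} (h : Cert al W) :
    ∀ (m : Ordinal.{0}) (a b : ZFSet.{0}), max a.rank b.rank = m → a.rank < al → b.rank < al →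
      (ZFSet.pair a b ∈ W ↔ Lr a b) := by
  intro m
  induction m using Ordinal.induction with
  | _ m ih =>
    intro a b hm ha hb
    rw [h a b ha hb, lr_iff]
    refine hlr_congr fun w z hw hz => ?_
    have hlt : max w.rank z.rank < m := hm ▸ max_lt_of hw hz
    have hmal : m < al := hm ▸ max_lt ha hb
    exact ih _ hlt w z rfl ((le_max_left _ _).trans_lt (hlt.trans hmal))
      ((le_max_right _ _).trans_lt (hlt.trans hmal))

theorem exists_cert (al : Ordinal.{0}) : ∃ W, Cert al W := by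
  have key : ∀ a b : ZFSet.{0}, a.rank < al → b.rank < al →
      (ZFSet.pair a b ∈ pairSep (fun a b => Lr a b) (V_ al) (V_ al) ↔ Lr a b) := by
    intro a b ha hb
    rw [mem_pairSep]
    constructor
    · rintro ⟨a', _, b', _, e, hr⟩
      obtain ⟨rfl, rfl⟩ := pair_inj.1 e
      exact hr
    · intro hr
      exact ⟨a, mem_vonNeumann.2 ha, b, mem_vonNeumann.2 hb, rfl, hr⟩
  refine ⟨pairSep (fun a b => Lr a b) (V_ al) (V_ al), fun a b ha hb => ?_⟩
  rw [key a b ha hb, lr_iff]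
  refine hlr_congr fun w z hw hz => ?_
  have hlt : max w.rank z.rank < al := (max_lt_of hw hz).trans (max_lt ha hb)
  exact (key w z ((le_max_left _ _).trans_lt hlt) ((le_max_right _ _).trans_lt hlt)).symm

theorem lr_iff_cert (x y : ZFSet.{0}) : Lr x y ↔ ∃ t W : ZFSet.{0}, x.rank < t.rank ∧
    y.rank < t.rank ∧ Cert t.rank W ∧ ZFSet.pair x y ∈ W := by
  constructor
  · intro h
    have hx : x.rank < (Order.succ (max x.rank y.rank)) :=
      (le_max_left _ _).trans_lt (lt_succ _)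
    have hy : y.rank < (Order.succ (max x.rank y.rank)) :=
      (le_max_right _ _).trans_lt (lt_succ _)
    obtain ⟨W, hW⟩ := exists_cert (Order.succ (max x.rank y.rank))
    refine ⟨(Order.succ (max x.rank y.rank)).toZFSet, W, ?_⟩
    rw [rank_toZFSet]
    exact ⟨hx, hy, hW, (hW.iff _ x y rfl hx hy).2 h⟩
  · rintro ⟨t, W, hx, hy, hW, h⟩
    exact (hW.iff _ x y rfl hx hy).1 h

/-! ### definability -/

theorem dfn_hlr (i j k : ℕ) :
    Dfn (fun v => HLr (fun w z => ZFSet.pair w z ∈ v k) (v i) (v j)) := by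
  have a1 := Pool.Agent.Helper62.HM.LS.dfn_key1 Inp.td (i + 1) 0
  have a2 := Pool.Agent.Helper62.HM.LS.dfn_key1 Inp.td (j + 1) 0
  have b1 := Pool.Agent.Helper62.HM.LS.dfn_key2 Inp.td (i + 1) 0
  have b2 := Pool.Agent.Helper62.HM.LS.dfn_key2 Inp.td (j + 1) 0
  have c1 : Dfn (fun v => key1 (v i) < key1 (v j)) :=
    Pool.Agent.Helper62.HM.LS.dfn_lt_of (f := fun v => key1 (v i)) (g := fun v => key1 (v j)) a1 a2
  have c2 : Dfn (fun v => key1 (v i) = key1 (v j)) :=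
    Pool.Agent.Helper62.HM.LS.dfn_eq_of (f := fun v => key1 (v i)) (g := fun v => key1 (v j)) a1 a2
  have c3 : Dfn (fun v => key2 (v i) < key2 (v j)) :=
    Pool.Agent.Helper62.HM.LS.dfn_lt_of (f := fun v => key2 (v i)) (g := fun v => key2 (v j)) b1 b2
  have c4 : Dfn (fun v => key2 (v i) = key2 (v j)) :=
    Pool.Agent.Helper62.HM.LS.dfn_eq_of (f := fun v => key2 (v i)) (g := fun v => key2 (v j)) b1 b2
  have d1 : Dfn (fun v => ∀ w, w ∈ v (i + 1) ∨ w ∈ v (j + 1) →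
      ZFSet.pair w (v 0) ∈ v (k + 1) → (w ∈ v (i + 1) ↔ w ∈ v (j + 1))) :=
    Dfn.all (Q := fun w v => w ∈ v (i + 1) ∨ w ∈ v (j + 1) →
      ZFSet.pair w (v 0) ∈ v (k + 1) → (w ∈ v (i + 1) ↔ w ∈ v (j + 1)))
      (((dfn_mem 0 (i + 2)).or (dfn_mem 0 (j + 2))).imp ((dfn_pair_mem 0 1 (k + 2)).imp
        ((dfn_mem 0 (i + 2)).iff (dfn_mem 0 (j + 2)))))
  have c5 : Dfn (fun v => ∃ z, z ∈ v j ∧ z ∉ v i ∧ ∀ w, w ∈ v i ∨ w ∈ v j →
      ZFSet.pair w z ∈ v k → (w ∈ v i ↔ w ∈ v j)) :=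
    Dfn.ex (Q := fun z v => z ∈ v j ∧ z ∉ v i ∧ ∀ w, w ∈ v i ∨ w ∈ v j →
      ZFSet.pair w z ∈ v k → (w ∈ v i ↔ w ∈ v j))
      ((dfn_mem 0 (j + 1)).and ((dfn_mem 0 (i + 1)).not.and d1))
  exact (dfn_rank_lt i j).or ((dfn_rank_eq i j).and (c1.or (c2.and (c3.or (c4.and c5)))))

theorem dfn_cert (i k : ℕ) : Dfn (fun v => Cert (v i).rank (v k)) := by
  have h1 : Dfn (fun v => ∀ b : ZFSet.{0}, (v 0).rank < (v (i + 1)).rank →
      b.rank < (v (i + 1)).rank → (ZFSet.pair (v 0) b ∈ v (k + 1) ↔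
        HLr (fun w z => ZFSet.pair w z ∈ v (k + 1)) (v 0) b)) :=
    Dfn.all (Q := fun b v => (v 0).rank < (v (i + 1)).rank →
      b.rank < (v (i + 1)).rank → (ZFSet.pair (v 0) b ∈ v (k + 1) ↔
        HLr (fun w z => ZFSet.pair w z ∈ v (k + 1)) (v 0) b))
      ((dfn_rank_lt 1 (i + 2)).imp ((dfn_rank_lt 0 (i + 2)).imp
        ((dfn_pair_mem 1 0 (k + 2)).iff (dfn_hlr 1 0 (k + 2)))))
  exact Dfn.all (Q := fun a v => ∀ b : ZFSet.{0}, a.rank < (v i).rank →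
      b.rank < (v i).rank → (ZFSet.pair a b ∈ v k ↔
        HLr (fun w z => ZFSet.pair w z ∈ v k) a b)) h1

theorem dfn_lr : Dfn (fun v => Lr (v 0) (v 1)) := by
  have h1 : Dfn (fun v => ∃ W : ZFSet.{0}, (v 1).rank < (v 0).rank ∧ (v 2).rank < (v 0).rank ∧
      Cert (v 0).rank W ∧ ZFSet.pair (v 1) (v 2) ∈ W) :=
    Dfn.ex (Q := fun W v => (v 1).rank < (v 0).rank ∧ (v 2).rank < (v 0).rank ∧
      Cert (v 0).rank W ∧ ZFSet.pair (v 1) (v 2) ∈ W)
      ((dfn_rank_lt 2 1).and ((dfn_rank_lt 3 1).and ((dfn_cert 1 0).and (dfn_pair_mem 2 3 0))))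
  refine (Dfn.ex (Q := fun t v => ∃ W : ZFSet.{0}, (v 0).rank < t.rank ∧ (v 1).rank < t.rank ∧
      Cert t.rank W ∧ ZFSet.pair (v 0) (v 1) ∈ W) h1).congr fun v => ?_
  exact (lr_iff_cert (v 0) (v 1)).symm

theorem hld : StHLD := ⟨Lr, dfn_lr, lr_iff⟩

end Pool.Agent.Helper76.HN.HLD
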